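import Pool.Agent.H32.WrB

namespace Pool.Agent.Results.MP_5b5905_lc.Undecidable

open Pool.Agent.H32.Wr Pool.Agent.H37 Pool.Agent.H38.CM

theorem wr_iff {P Q A : Type} {k : ℕ} (M : Dm P k) (x : ℕ) (δ : Q → A → Q) (o : Q → A → A)
    (e : Sy P k × Bool ≃ Q) (ι : A → Lt P k) (h1 : ∀ q a, δ q a = e (dl M (e.symm q) (ι a)))
    (h2 : ∀ q a, ι (o q a) = ou M x (e.symm q) (ι a))
    (h3 : ∀ y : Lt P k, (∀ i, y = .inl i → i ≤ x) → ∃ a, ι a = y) :
    WeaklyReset δ o ↔ ∃ T, M.hl (M.stp^[T] (M.p0, init x)).1 = true := by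
  have f1 : ∀ (u : List A) q, u.foldl δ q = e ((u.map ι).foldl (dl M) (e.symm q)) := by
    intro u
    induction u with
    | nil => simp
    | cons a u ih => intro q; simp [ih, h1]
  have f2 : ∀ (u : List A) q, (ap δ o q u).map ι = ap (dl M) (ou M x) (e.symm q) (u.map ι) := by
    intro u
    induction u with
    | nil => simp [ap]
    | cons a u ih => intro q; simp [ap, ih, h1, h2]
  have f3 : ∀ u, u ∈ Syn δ ↔ alv ∈ u.map ι := fun u => by
    rw [← syn_iff M, Syn, Set.mem_ofPred, Set.ncard_eq_one]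
    constructor
    · rintro ⟨p, hp⟩
      refine ⟨e.symm p, fun q => ?_⟩
      have : u.foldl δ (e q) = p := hp.le ⟨_, rfl⟩
      rw [f1] at this
      simpa using congrArg e.symm this
    · rintro ⟨p, hp⟩
      refine ⟨e p, Set.eq_singleton_iff_unique_mem.2 ⟨⟨e p, by simp only [f1, hp]⟩, ?_⟩⟩
      rintro _ ⟨q, rfl⟩
      simp only [f1, hp]
  constructor
  · rintro ⟨-, H, ⟨u, hu⟩, a1, -, a2⟩
    by_contra h
    obtain ⟨v, b1, b2⟩ := kill M x (fun T => by simpa using fun h' => h ⟨T, h'⟩) (u.map ι)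
    have : ∃ u' ∈ H, v = u'.map ι := by
      clear b2
      induction b1 with
      | refl => exact ⟨u, hu, rfl⟩
      | tail _ hs ih =>
        obtain ⟨u', c, rfl⟩ := ih
        obtain ⟨q, rfl⟩ := hs
        exact ⟨_, a2 (e q) u' c, by simp [f2]⟩
    obtain ⟨u', c, rfl⟩ := this
    exact b2 ((f3 _).1 (a1 c))
  · rintro ⟨T, hT⟩
    obtain ⟨u, a1, a2⟩ := live M x hT
    have : ∃ u0 : List A, u0.map ι = u := by
      clear a2
      induction u with
      | nil => exact ⟨[], rfl⟩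
      | cons y u ih =>
        obtain ⟨u0, rfl⟩ := ih fun i hi => a1 i (by simp [hi])
        obtain ⟨a, rfl⟩ := h3 y fun i hi => a1 i (by simp [hi])
        exact ⟨a :: u0, rfl⟩
    obtain ⟨u0, rfl⟩ := this
    refine ⟨⟨u0, (f3 _).2 (a2 _ .refl)⟩,
      {w | ∃ s v t, Rc M x (u0.map ι) (v.map ι) ∧ w = s ++ v ++ t},
      ⟨u0, [], u0, [], by exact .refl, by simp⟩, ?_, ?_, ?_⟩
    · rintro _ ⟨s, v, t, b, rfl⟩
      have := a2 _ b
      rw [f3, List.map_append, List.map_append]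
      simp only [List.mem_append, this, or_true, true_or]
    · rintro s' t' _ ⟨s, v, t, b, rfl⟩
      exact ⟨s' ++ s, v, t ++ t', b, by simp⟩
    · rintro q _ ⟨s, v, t, b, rfl⟩
      exact ⟨_, _, _, b.tail ⟨_, f2 _ _⟩, by rw [ap_app, ap_app]⟩

theorem ci2 (g : ℕ → ℕ → ℕ) (n m : ℕ) :
    CI ∅ fun p : ℕ × ℕ => if p.1 < n ∧ p.2 < m then g p.1 p.2 else 0 := by
  have : CI ∅ fun p : ℕ × ℕ =>
      (((List.range n).map fun q => (List.range m).map (g q)).getD p.1 []).getD p.2 0 := by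
    fun_prop
  refine this.of_eq fun p => ?_
  by_cases h : p.1 < n <;> by_cases h' : p.2 < m <;> simp [h, h', List.getD]

theorem tbl_eq {n m k : ℕ} (f : Fin n → Fin m → Fin k) (g : ℕ → ℕ → ℕ)
    (h : ∀ q a, (f q a).val = g q a) :
    tbl f = (List.range n).map fun q => (List.range m).map (g q) := by
  refine List.ext_getElem (by simp [tbl]) fun i _ _ => ?_
  refine List.ext_getElem (by simp [tbl]) fun j _ _ => ?_
  simp [tbl, h]

theorem result : ¬ ∃ f : ℕ × ℕ × List (List ℕ) × List (List ℕ) → Bool, Computable f ∧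
    ∀ (n m : ℕ) (δ : Fin n → Fin m → Fin n) (o : Fin n → Fin m → Fin m),
      f (n, m, tbl δ, tbl o) = true ↔ WeaklyReset δ o := by
  rintro ⟨f, hf, H⟩
  obtain ⟨P, _, k, M, hM⟩ := exists_dm
  obtain ⟨n, ⟨e⟩⟩ := Finite.exists_equiv_fin (Sy P k × Bool)
  obtain ⟨b, ⟨eB⟩⟩ := Finite.exists_equiv_fin (Mem P k ⊕ Bool)
  let ι : ℕ → Lt P k := fun a => if h : a < b then .inr (eB.symm ⟨a, h⟩) else .inl (a - b)
  let κ : Lt P k → ℕ := Sum.elim (b + ·) fun y => eB y
  have i1 : ∀ y, ι (κ y) = y := by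
    rintro (i | y) <;> simp [ι, κ]
  let dq : ℕ → Sy P k × Bool := fun t => if h : t < n then e.symm ⟨t, h⟩ else (none, false)
  have d1 : ∀ q : Fin n, dq q = e.symm q := fun q => dif_pos q.2
  have c1 := ci2 (fun q a => e (dl M (dq q) (ι a))) n (b + 2)
  have c2 := ci2 (fun q a => κ (ou M 0 (dq q) (ι a))) n b
  have c3 := ci2 (fun q _ => (dq q).1.elim 0 fun _ => 1) n 1
  generalize e1 : (fun p : ℕ × ℕ => if p.1 < n ∧ p.2 < b + 2 then
    (e (dl M (dq p.1) (ι p.2))).val else 0) = g1 at c1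
  generalize e2 : (fun p : ℕ × ℕ => if p.1 < n ∧ p.2 < b then
    κ (ou M 0 (dq p.1) (ι p.2)) else 0) = g2 at c2
  generalize e3 : (fun p : ℕ × ℕ => if p.1 < n ∧ p.2 < 1 then
    (dq p.1).1.elim 0 fun _ => 1 else 0) = g3 at c3
  have hc : CI ∅ fun x : ℕ => (n, b + x + 1,
      (List.range n).map fun q => (List.range (b + x + 1)).map fun a =>
        g1 (q, cond (decide (a < b + 1)) a (b + 1)),
      (List.range n).map fun q => (List.range (b + x + 1)).map fun a =>
        cond (decide (a < b)) (g2 (q, a)) (cond (g3 (q, 0) == 0) (b + x) (b + (a - b - 1)))) := by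
    fun_prop
  refine hM (ComputablePred.computable_iff.2 ⟨_, hf.comp hc.computable,
    funext fun x => propext ?_⟩)
  have hb : ∀ (q : Fin n) (a : Fin (b + x + 1)), κ (ou M x (e.symm q) (ι a)) < b + x + 1 := by
    intro q a
    have := a.2
    simp only [ι]
    split_ifs with h
    · rcases eB.symm ⟨a, h⟩ with m | c <;> exact (eB _).2.trans (by omega)
    · simp only [ou, κ, Sum.elim_inl]
      rcases (e.symm q).1 with _ | s <;> simp <;> omega
  rw [← wr_iff M x (fun q (a : Fin (b + x + 1)) => e (dl M (e.symm q) (ι a)))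
    (fun q a => ⟨_, hb q a⟩) e (fun a => ι a) (fun _ _ => rfl) (fun _ _ => i1 _) fun y hy =>
      ⟨⟨κ y, by
        rcases y with i | y
        · have := hy i rfl
          simp only [κ, Sum.elim_inl]; omega
        · exact (eB _).2.trans (by omega)⟩, i1 y⟩, ← H, tbl_eq, tbl_eq]
  · intro q a
    subst e2 e3
    by_cases h : a.val < b
    · simp only [h, q.2, d1, ι, decide_true, cond_true, and_self, if_true, dif_pos]
      rcases eB.symm ⟨a, h⟩ with m | c <;> rfl
    · simp only [h, q.2, d1, ι, decide_false, cond_false, dif_neg, not_false_eq_true, ou, κ]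
      rcases (e.symm q).1 with _ | s <;> simp
  · intro q a
    subst e1
    by_cases h : a.val < b + 1
    · simp [h, q.2, d1, h.trans (Nat.lt_succ_self _)]
    · simp [h, q.2, d1, ι, show ¬ a.val < b by omega, dl, show b < a.val by omega]

end Pool.Agent.Results.MP_5b5905_lc.Undecidable
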